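import Pool.Agent.U922.XP.D

/-! # Blocks with arbitrary bounded coefficients and a generic polynomial phase -/

set_option autoImplicit false

open Finset MeasureTheory

namespace Pool.Agent.U922.XR

open Pool.Agent.U922.MV Pool.Agent.U922.XP
open Pool.Agent.W928.MW (e e_add e_norm e_sub_re e_cont e_lip)
open Pool.Agent.TH181.MW (tup e_sum e_zero)
open Pool.Agent.helper132_dc (sk)

/-- block sum -/
noncomputable def bsB (k m M : ℕ) (b : ℕ → ℂ) (a : ℕ) (θ : Fin k → ℝ) (c : Fin m → ℝ) : ℂ :=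
  ∑ n ∈ Icc 1 M, b (a + n) * e (lo k θ ((a + n : ℕ) : ℝ) + lo m c n)

noncomputable def bpB (s k m M : ℕ) (b : ℕ → ℂ) (a : ℕ) (v : Fin m → ℕ) (θ : Fin k → ℝ) : ℂ :=
  ∑ z ∈ pv s m M v, (∏ i, b (a + z i)) * e (∑ j, θ j * (hz s k a z j : ℝ))

noncomputable def BQB (s k m M : ℕ) (b : ℕ → ℂ) (a : ℕ) (θ : Fin k → ℝ) : ℝ := ∑ v ∈ VV s m M, ‖bpB s k m M b a v θ‖ ^ 2

theorem bsB_pow (s k m M : ℕ) (b : ℕ → ℂ) (a : ℕ) (θ : Fin k → ℝ) (c : Fin m → ℝ) :
    bsB k m M b a θ c ^ s = ∑ v ∈ VV s m M, e (∑ j, c j * v j) * bpB s k m M b a v θ := by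
  have h1 : bsB k m M b a θ c ^ s = ∑ z ∈ tup s M, e (∑ j, c j * (pw s m z j : ℝ)) *
      ((∏ i, b (a + z i)) * e (∑ j, θ j * (hz s k a z j : ℝ))) := by
    unfold bsB tup
    rw [Finset.sum_pow']
    apply Finset.sum_congr rfl
    intro z _
    rw [Finset.prod_mul_distrib, ← e_sum]
    have h2 : e (∑ i, (lo k θ ((a + z i : ℕ) : ℝ) + lo m c (z i))) =
        e (∑ j, c j * (pw s m z j : ℝ)) * e (∑ j, θ j * (hz s k a z j : ℝ)) := by
      rw [← e_add]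
      congr 1
      unfold lo pw hz
      rw [Finset.sum_add_distrib, add_comm]
      congr 1
      · rw [Finset.sum_comm]
        refine Finset.sum_congr rfl fun j _ => ?_
        push_cast
        rw [Finset.mul_sum]
      · rw [Finset.sum_comm]
        refine Finset.sum_congr rfl fun j _ => ?_
        push_cast
        rw [Finset.mul_sum]
    rw [h2]
    ring
  rw [h1, ← Finset.sum_fiberwise_of_maps_to (s := tup s M) (t := VV s m M)
    (g := fun z : Fin s → ℕ => pw s m z) (fun z hz => pw_mem s m M z hz)]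
  apply Finset.sum_congr rfl
  intro v _
  unfold bpB pv
  rw [Finset.mul_sum]
  apply Finset.sum_congr rfl
  intro z hz
  rw [Finset.mem_filter] at hz
  rw [hz.2]

theorem sup_bsB (s k m M : ℕ) (b : ℕ → ℂ) (a : ℕ) (θ : Fin k → ℝ) (c : Fin m → ℝ) :
    ‖bsB k m M b a θ c‖ ^ (2 * s) ≤ ((VV s m M).card : ℝ) * BQB s k m M b a θ := by
  have h1 : ‖bsB k m M b a θ c‖ ^ (2 * s) = ‖bsB k m M b a θ c ^ s‖ ^ 2 := by
    rw [norm_pow, ← pow_mul, mul_comm]
  rw [h1, bsB_pow]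
  have h2 : ‖∑ v ∈ VV s m M, e (∑ j, c j * v j) * bpB s k m M b a v θ‖ ≤ ∑ v ∈ VV s m M, ‖bpB s k m M b a v θ‖ := by
    refine (norm_sum_le _ _).trans (le_of_eq ?_)
    apply Finset.sum_congr rfl
    intro v _
    rw [norm_mul, e_norm, one_mul]
  have h3 := sq_sum_le_card_mul_sum_sq (s := VV s m M) (f := fun v => ‖bpB s k m M b a v θ‖)
  refine le_trans ?_ h3
  exact pow_le_pow_left₀ (norm_nonneg _) h2 2

theorem bpB_cont (s k m M : ℕ) (b : ℕ → ℂ) (a : ℕ) (v : Fin m → ℕ) : Continuous (bpB s k m M b a v) := by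
  unfold bpB
  refine continuous_finsetSum _ (fun z _ => ?_)
  exact continuous_const.mul (e_cont.comp (by fun_prop))

theorem BQB_cont (s k m M : ℕ) (b : ℕ → ℂ) (a : ℕ) : Continuous (BQB s k m M b a) := by
  unfold BQB
  refine continuous_finsetSum _ (fun v _ => ?_)
  exact ((bpB_cont s k m M b a v).norm).pow 2

theorem BQB_nonneg (s k m M : ℕ) (b : ℕ → ℂ) (a : ℕ) (θ : Fin k → ℝ) : 0 ≤ BQB s k m M b a θ := by
  unfold BQB
  positivity

theorem bpB_sq (s k m M : ℕ) (b : ℕ → ℂ) (a : ℕ) (v : Fin m → ℕ) (θ : Fin k → ℝ) :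
    ((‖bpB s k m M b a v θ‖ ^ 2 : ℝ) : ℂ) =
    ∑ z ∈ (pv s m M v) ×ˢ (pv s m M v), ((∏ i, b (a + z.1 i)) * (starRingEnd ℂ) (∏ i, b (a + z.2 i))) *
      e (∑ j, θ j * (((hz s k a z.1 - hz s k a z.2) j : ℤ) : ℝ)) := by
  have h1 : ((‖bpB s k m M b a v θ‖ ^ 2 : ℝ) : ℂ) = bpB s k m M b a v θ * (starRingEnd ℂ) (bpB s k m M b a v θ) := by
    rw [Complex.mul_conj, Complex.normSq_eq_norm_sq]
  rw [h1]
  unfold bpB
  rw [map_sum, Finset.sum_mul_sum, ← Finset.sum_product']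
  apply Finset.sum_congr rfl
  intro z _
  rw [map_mul, e_conj]
  have h2 : e (∑ j, θ j * (((hz s k a z.1 - hz s k a z.2) j : ℤ) : ℝ)) =
      e (∑ j, θ j * (hz s k a z.1 j : ℝ)) * e (-∑ j, θ j * (hz s k a z.2 j : ℝ)) := by
    rw [← e_add]
    congr 1
    rw [← Finset.sum_neg_distrib, ← Finset.sum_add_distrib]
    refine Finset.sum_congr rfl fun j _ => ?_
    rw [Pi.sub_apply]
    push_cast
    ring
  rw [h2]
  ring

theorem int_BQB_le (s k m M : ℕ) (b : ℕ → ℂ) (hb : ∀ n, ‖b n‖ ≤ 1) (a : ℕ) :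
    ∫ θ, BQB s k m M b a θ ∂(box k) ≤ (cnt s k m M a : ℝ) := by
  have h1 : ((∫ θ, BQB s k m M b a θ ∂(box k) : ℝ) : ℂ) = ∑ v ∈ VV s m M, ∑ z ∈ (pv s m M v) ×ˢ (pv s m M v),
      ((∏ i, b (a + z.1 i)) * (starRingEnd ℂ) (∏ i, b (a + z.2 i))) *
        (if hz s k a z.1 - hz s k a z.2 = 0 then (1 : ℂ) else 0) := by
    rw [← integral_complex_ofReal]
    have h2 : ∀ θ : Fin k → ℝ, ((BQB s k m M b a θ : ℝ) : ℂ) = ∑ v ∈ VV s m M,
        ∑ z ∈ (pv s m M v) ×ˢ (pv s m M v), ((∏ i, b (a + z.1 i)) * (starRingEnd ℂ) (∏ i, b (a + z.2 i))) *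
          e (∑ j, θ j * (((hz s k a z.1 - hz s k a z.2) j : ℤ) : ℝ)) := by
      intro θ
      unfold BQB
      rw [Complex.ofReal_sum]
      exact Finset.sum_congr rfl fun v _ => bpB_sq s k m M b a v θ
    rw [show (fun θ : Fin k → ℝ => ((BQB s k m M b a θ : ℝ) : ℂ)) = _ from funext h2]
    rw [integral_finsetSum _ fun v _ => integrable_finsetSum _ fun z _ => (int_e_able k _).const_mul _]
    refine Finset.sum_congr rfl fun v _ => ?_
    rw [integral_finsetSum _ fun z _ => (int_e_able k _).const_mul _]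
    refine Finset.sum_congr rfl fun z _ => ?_
    rw [integral_const_mul, int_e]
  have h0 : 0 ≤ ∫ θ, BQB s k m M b a θ ∂(box k) := integral_nonneg fun θ => BQB_nonneg _ _ _ _ _ _ _
  have h2 : ∫ θ, BQB s k m M b a θ ∂(box k) = ‖((∫ θ, BQB s k m M b a θ ∂(box k) : ℝ) : ℂ)‖ := by
    rw [Complex.norm_real, Real.norm_of_nonneg h0]
  rw [h2, h1]
  refine (norm_sum_le _ _).trans ?_
  unfold cnt
  push_cast
  refine Finset.sum_le_sum fun v _ => ?_
  refine (norm_sum_le _ _).trans ?_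
  rw [Finset.card_filter]
  push_cast
  refine Finset.sum_le_sum fun z _ => ?_
  have h3 : ‖(∏ i, b (a + z.1 i)) * (starRingEnd ℂ) (∏ i, b (a + z.2 i))‖ ≤ 1 := by
    rw [norm_mul, RCLike.norm_conj, norm_prod, norm_prod]
    have h4 : ∏ i, ‖b (a + z.1 i)‖ ≤ 1 := Finset.prod_le_one (fun i _ => norm_nonneg _) fun i _ => hb _
    have h5 : ∏ i, ‖b (a + z.2 i)‖ ≤ 1 := Finset.prod_le_one (fun i _ => norm_nonneg _) fun i _ => hb _
    exact mul_le_one₀ h4 (Finset.prod_nonneg fun i _ => norm_nonneg _) h5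
  rw [norm_mul]
  by_cases hh : hz s k a z.1 = hz s k a z.2
  · rw [if_pos (sub_eq_zero.2 hh), if_pos hh, norm_one, mul_one]
    exact h3
  · rw [if_neg (fun h => hh (sub_eq_zero.1 h)), if_neg hh, norm_zero, mul_zero]

theorem lint_BQB (s k m M : ℕ) (b : ℕ → ℂ) (hb : ∀ n, ‖b n‖ ≤ 1) (a : ℕ) (hk : 1 ≤ k) :
    ∫⁻ θ, ENNReal.ofReal (BQB s k m M b a θ) ∂(box k) ≤ ENNReal.ofReal (JV s (k - 1) k M : ℝ) := by
  have hint : Integrable (BQB s k m M b a) (box k) := by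
    refine Integrable.of_bound (C := ((VV s m M).card : ℝ) * ((tup s M).card : ℝ) ^ 2)
      (BQB_cont s k m M b a).aestronglyMeasurable (Filter.Eventually.of_forall fun θ => ?_)
    rw [Real.norm_of_nonneg (BQB_nonneg s k m M b a θ)]
    unfold BQB
    rw [← nsmul_eq_mul]
    refine Finset.sum_le_card_nsmul _ _ _ fun v _ => ?_
    apply pow_le_pow_left₀ (norm_nonneg _)
    unfold bpB
    refine (norm_sum_le _ _).trans ?_
    have h1 : ∀ z ∈ pv s m M v, ‖(∏ i, b (a + z i)) * e (∑ j, θ j * (hz s k a z j : ℝ))‖ ≤ 1 := by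
      intro z _
      rw [norm_mul, e_norm, mul_one, norm_prod]
      exact Finset.prod_le_one (fun i _ => norm_nonneg _) fun i _ => hb _
    refine (Finset.sum_le_card_nsmul _ _ _ h1).trans ?_
    rw [nsmul_eq_mul, mul_one]
    exact_mod_cast Finset.card_le_card (Finset.filter_subset _ _)
  rw [← ofReal_integral_eq_lintegral_ofReal hint (Filter.Eventually.of_forall (BQB_nonneg s k m M b a))]
  apply ENNReal.ofReal_le_ofReal
  refine (int_BQB_le s k m M b hb a).trans ?_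
  exact_mod_cast cnt_le s k m M a hk

theorem ae_finB (k m : ℕ) (hk : 1 ≤ k) (b : ℕ → ℂ) (hb : ∀ n, ‖b n‖ ≤ 1) :
    ∀ᵐ θ ∂(box k), ∃ K : ℝ, 1 ≤ K ∧ ∀ a M : ℕ, 1 ≤ M → M ≤ a →
    BQB (sk k) k m M b a θ ≤ K * (a : ℝ) ^ (sk k + 4) := by
  obtain ⟨C, hC, hJ⟩ := jv_bound (k - 1) k (by omega) 1 one_pos
  have e1 : k - 1 + 1 = k := by omega
  rw [e1] at hJ
  obtain ⟨s, hs⟩ : ∃ s, s = sk k := ⟨_, rfl⟩
  rw [← hs] at hJ ⊢
  set F : ℕ → (Fin k → ℝ) → ENNReal := fun a θ => ∑ M ∈ Icc 1 a,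
    ENNReal.ofReal (BQB s k m M b a θ) * ENNReal.ofReal (1 / (a : ℝ) ^ (s + 4)) with hF
  have hm1 : ∀ a M : ℕ, Measurable (fun θ => ENNReal.ofReal (BQB s k m M b a θ)) := fun a M =>
    (BQB_cont s k m M b a).measurable.ennreal_ofReal
  have hmF : ∀ a, Measurable (F a) := by
    intro a
    rw [hF]
    exact Finset.measurable_sum _ fun M _ => (hm1 a M).mul_const _
  have hFa : ∀ a : ℕ, ∫⁻ θ, F a θ ∂(box k) ≤ ENNReal.ofReal (C * (1 / (a : ℝ) ^ 2)) := by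
    intro a
    rcases Nat.eq_zero_or_pos a with h0 | h0
    · subst h0
      rw [hF]
      simp
    have ha : (0 : ℝ) < a := by exact_mod_cast h0
    have h1 : ∀ M ∈ Icc 1 a, ∫⁻ θ, ENNReal.ofReal (BQB s k m M b a θ) * ENNReal.ofReal (1 / (a : ℝ) ^ (s + 4)) ∂(box k) ≤
        ENNReal.ofReal (C * (1 / (a : ℝ) ^ 3)) := by
      intro M hM
      rw [Finset.mem_Icc] at hM
      rw [lintegral_mul_const _ (hm1 a M)]
      refine (mul_le_mul_left (lint_BQB s k m M b hb a hk) _).trans ?_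
      rw [← ENNReal.ofReal_mul (by positivity)]
      apply ENNReal.ofReal_le_ofReal
      have h2 := hJ M hM.1
      have h3 : (M : ℝ) ^ ((s : ℝ) + 1) ≤ (a : ℝ) ^ (s + 1) := by
        have : (M : ℝ) ^ ((s : ℝ) + 1) = (M : ℝ) ^ (s + 1) := by
          rw [← Real.rpow_natCast]; push_cast; rfl
        rw [this]
        exact pow_le_pow_left₀ (by positivity) (by exact_mod_cast hM.2) _
      have h4 : (JV s (k - 1) k M : ℝ) ≤ C * (a : ℝ) ^ (s + 1) :=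
        h2.trans (mul_le_mul_of_nonneg_left h3 (by linarith))
      refine (mul_le_mul_of_nonneg_right h4 (by positivity)).trans (le_of_eq ?_)
      have h5 : (a : ℝ) ^ (s + 4) = (a : ℝ) ^ (s + 1) * (a : ℝ) ^ 3 := by rw [← pow_add]
      rw [h5]
      field_simp
    have h2 : ∫⁻ θ, F a θ ∂(box k) = ∑ M ∈ Icc 1 a,
        ∫⁻ θ, ENNReal.ofReal (BQB s k m M b a θ) * ENNReal.ofReal (1 / (a : ℝ) ^ (s + 4)) ∂(box k) := by
      rw [hF]
      exact lintegral_finsetSum _ fun M _ => (hm1 a M).mul_const _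
    rw [h2]
    refine (Finset.sum_le_sum h1).trans ?_
    rw [Finset.sum_const, Nat.card_Icc, Nat.add_sub_cancel, nsmul_eq_mul, ← ENNReal.ofReal_natCast,
      ← ENNReal.ofReal_mul (by positivity)]
    apply ENNReal.ofReal_le_ofReal
    refine le_of_eq ?_
    have h5 : (a : ℝ) ^ 3 = a * (a : ℝ) ^ 2 := by ring
    rw [h5]
    field_simp
  have hfin : ∫⁻ θ, ∑' a, F a θ ∂(box k) ≠ ⊤ := by
    rw [lintegral_tsum fun a => (hmF a).aemeasurable]
    refine ne_top_of_le_ne_top ?_ (ENNReal.tsum_le_tsum hFa)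
    exact Summable.tsum_ofReal_ne_top ((Real.summable_one_div_nat_pow.2 one_lt_two).mul_left C)
  have hae := ae_lt_top (Measurable.tsum hmF) hfin
  filter_upwards [hae] with θ hθ
  refine ⟨max 1 (∑' a, F a θ).toReal, le_max_left _ _, fun a M hM1 hMa => ?_⟩
  have ha : (0 : ℝ) < a := by
    have : 0 < a := by omega
    exact_mod_cast this
  have h1 : ENNReal.ofReal (BQB s k m M b a θ) * ENNReal.ofReal (1 / (a : ℝ) ^ (s + 4)) ≤ ∑' a, F a θ := by
    refine le_trans ?_ (ENNReal.le_tsum a)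
    rw [hF]
    exact Finset.single_le_sum (f := fun M => ENNReal.ofReal (BQB s k m M b a θ) * ENNReal.ofReal (1 / (a : ℝ) ^ (s + 4)))
      (fun _ _ => zero_le) (Finset.mem_Icc.2 ⟨hM1, hMa⟩)
  rw [← ENNReal.ofReal_mul (BQB_nonneg _ _ _ _ _ _ _)] at h1
  have h2 := (ENNReal.ofReal_le_iff_le_toReal hθ.ne).1 h1
  have h3 := h2.trans (le_max_right 1 _)
  have h4 : (0 : ℝ) < (a : ℝ) ^ (s + 4) := by positivity
  have h5 : BQB s k m M b a θ = (BQB s k m M b a θ * (1 / (a : ℝ) ^ (s + 4))) * (a : ℝ) ^ (s + 4) := by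
    field_simp
  rw [h5]
  exact mul_le_mul_of_nonneg_right h3 h4.le

/-- the parameters with a uniform bound for all blocks -/
def GoodB (k m : ℕ) (b : ℕ → ℂ) (β : ℝ) (θ : Fin k → ℝ) : Prop :=
  ∃ K : ℝ, 1 ≤ K ∧ ∀ a M : ℕ, 1 ≤ a → M ≤ a → ∀ c : Fin m → ℝ, ‖bsB k m M b a θ c‖ ≤ K * (a : ℝ) ^ β

theorem ae_goodB (k m : ℕ) (hk : 1 ≤ k) (hs : 1 ≤ sk k) (b : ℕ → ℂ) (hb : ∀ n, ‖b n‖ ≤ 1) (β : ℝ)
    (hβ : ((m * (m + 1) / 2 : ℕ) : ℝ) + sk k + 4 ≤ 2 * sk k * β) : ∀ᵐ θ ∂(box k), GoodB k m b β θ := by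
  filter_upwards [ae_finB k m hk b hb] with θ hθ
  obtain ⟨K, hK, h⟩ := hθ
  obtain ⟨s, hs'⟩ : ∃ s, s = sk k := ⟨_, rfl⟩
  rw [← hs'] at h hβ hs
  have hs0 : (1 : ℝ) ≤ (s : ℝ) + 1 := by
    have : (0 : ℝ) ≤ s := by positivity
    linarith
  have hK' : (1 : ℝ) ≤ ((s : ℝ) + 1) ^ m * K := by
    have := one_le_pow₀ hs0 (n := m)
    nlinarith
  refine ⟨((s : ℝ) + 1) ^ m * K, hK', fun a M ha hM c => ?_⟩
  have ha1 : (1 : ℝ) ≤ a := by exact_mod_cast ha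
  have ha0 : (0 : ℝ) < a := by linarith
  rcases Nat.eq_zero_or_pos M with h0 | h0
  · subst h0
    unfold bsB
    simp only [Finset.Icc_eq_empty_of_lt (Nat.zero_lt_one), Finset.sum_empty, norm_zero]
    positivity
  · have h1 := sup_bsB s k m M b a θ c
    have h2 := h a M h0 hM
    have h3 := card_VV s m M h0
    have h4 : (M : ℝ) ^ (m * (m + 1) / 2) ≤ (a : ℝ) ^ (m * (m + 1) / 2) :=
      pow_le_pow_left₀ (by positivity) (by exact_mod_cast hM) _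
    have h5 : ‖bsB k m M b a θ c‖ ^ (2 * s) ≤
        (((s : ℝ) + 1) ^ m * (a : ℝ) ^ (m * (m + 1) / 2)) * (K * (a : ℝ) ^ (s + 4)) := by
      refine h1.trans (mul_le_mul (h3.trans (mul_le_mul_of_nonneg_left h4 (by positivity))) h2
        (BQB_nonneg _ _ _ _ _ _ _) (by positivity))
    have h6 : (a : ℝ) ^ (m * (m + 1) / 2) * (a : ℝ) ^ (s + 4) ≤ ((a : ℝ) ^ β) ^ (2 * s) := by
      rw [← pow_add, ← Real.rpow_natCast, ← Real.rpow_natCast ((a : ℝ) ^ β), ← Real.rpow_mul ha0.le]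
      apply Real.rpow_le_rpow_of_exponent_le ha1
      push_cast
      linarith
    have h7 : ((s : ℝ) + 1) ^ m * K ≤ (((s : ℝ) + 1) ^ m * K) ^ (2 * s) := le_self_pow₀ hK' (by omega)
    have h8 : ‖bsB k m M b a θ c‖ ^ (2 * s) ≤ (((s : ℝ) + 1) ^ m * K * (a : ℝ) ^ β) ^ (2 * s) := by
      rw [mul_pow]
      refine h5.trans ?_
      calc (((s : ℝ) + 1) ^ m * (a : ℝ) ^ (m * (m + 1) / 2)) * (K * (a : ℝ) ^ (s + 4))
          = (((s : ℝ) + 1) ^ m * K) * ((a : ℝ) ^ (m * (m + 1) / 2) * (a : ℝ) ^ (s + 4)) := by ring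
        _ ≤ _ := mul_le_mul h7 h6 (by positivity) (by positivity)
    exact le_of_pow_le_pow_left₀ (by omega) (by positivity) h8

end Pool.Agent.U922.XR
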