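import Pool.Agent.U922.XR.A

/-! # Arbitrary bounded coefficients and a generic polynomial phase: all smooth functions at once -/

set_option autoImplicit false

open Finset MeasureTheory
open scoped Nat

namespace Pool.Agent.U922.XR

open Pool.Agent.U922.MV Pool.Agent.U922.XP
open Pool.Agent.W928.MW (e e_add e_norm e_cont e_lip)

/-- one block -/
theorem block_leB {k m : ℕ} {b' : ℕ → ℂ} (hb' : ∀ n, ‖b' n‖ ≤ 1) {θ : Fin k → ℝ} {β K : ℝ} (hK : 1 ≤ K)
    (hG : ∀ a M : ℕ, 1 ≤ a → M ≤ a → ∀ c : Fin m → ℝ, ‖bsB k m M b' a θ c‖ ≤ K * (a : ℝ) ^ β)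
    {f : ℝ → ℝ} {l r C : ℝ} (hf : ContDiffOn ℝ ((m + 1 : ℕ) : WithTop ℕ∞) f (Set.Icc l r)) (hC0 : 0 ≤ C)
    (hC : ∀ y ∈ Set.Icc l r, |iteratedDerivWithin (m + 1) f (Set.Icc l r) y| ≤ C)
    {a b L : ℕ} (hla : l ≤ a) (hab : a ≤ b) (hbr : (b : ℝ) ≤ r) (hbL : b ≤ a + L) (hLa : L ≤ a) (ha : 1 ≤ a) :
    ‖∑ n ∈ Ioc a b, b' n * e (f n + lo k θ n)‖ ≤ K * (a : ℝ) ^ β + L * (2 * Real.pi * (C * (L : ℝ) ^ (m + 1))) := by
  obtain ⟨M, hM⟩ : ∃ M, b = a + M := ⟨b - a, by omega⟩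
  rcases Nat.eq_zero_or_pos M with h0 | h0
  · subst h0
    rw [hM]
    simp only [add_zero, Finset.Ioc_self, Finset.sum_empty, norm_zero]
    positivity
  have hML : M ≤ L := by omega
  have hab' : (a : ℝ) < b := by
    have : a < b := by omega
    exact_mod_cast this
  set c : Fin m → ℝ := fun j => ((((j : ℕ) + 1)! : ℕ) : ℝ)⁻¹ * iteratedDerivWithin ((j : ℕ) + 1) f (Set.Icc l r) a with hc
  have h1 : ∀ n ∈ Icc 1 M, |f ((a + n : ℕ) : ℝ) - (f a + lo m c n)| ≤ C * (L : ℝ) ^ (m + 1) := by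
    intro n hn
    rw [Finset.mem_Icc] at hn
    have hx : ((a + n : ℕ) : ℝ) ∈ Set.Icc (a : ℝ) b := by
      constructor
      · push_cast; linarith [(Nat.cast_nonneg n : (0 : ℝ) ≤ n)]
      · exact_mod_cast (by omega : a + n ≤ b)
    have h2 := taylor_block (n := m) hf hla hab' hbr hC hx
    have h3 : ((a + n : ℕ) : ℝ) - a = n := by push_cast; ring
    rw [h3] at h2
    have h4 : ∑ k ∈ Finset.range (m + 1), ((k ! : ℝ)⁻¹ * (n : ℝ) ^ k) * iteratedDerivWithin k f (Set.Icc l r) a =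
        f a + lo m c n := by
      rw [Finset.sum_range_succ', Finset.sum_range, add_comm]
      congr 1
      · simp
      · unfold lo
        refine sum_congr rfl fun j _ => ?_
        rw [hc]
        simp only
        ring
    rw [h4] at h2
    refine h2.trans (mul_le_mul_of_nonneg_left ?_ hC0)
    exact pow_le_pow_left₀ (by positivity) (by exact_mod_cast hn.2.trans hML) _
  have h2 : ∑ n ∈ Ioc a b, b' n * e (f n + lo k θ n) = (∑ n ∈ Icc 1 M, b' (a + n) * (e (f ((a + n : ℕ) : ℝ) +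
      lo k θ ((a + n : ℕ) : ℝ)) -
      e ((f a + lo m c n) + lo k θ ((a + n : ℕ) : ℝ)))) + e (f a) * bsB k m M b' a θ c := by
    rw [hM, sum_Ioc_shift (fun n : ℕ => b' n * e (f n + lo k θ n)) a M]
    simp_rw [mul_sub]
    rw [Finset.sum_sub_distrib]
    have h3 : ∑ n ∈ Icc 1 M, b' (a + n) * e ((f a + lo m c n) + lo k θ ((a + n : ℕ) : ℝ)) = e (f a) * bsB k m M b' a θ c := by
      unfold bsB
      rw [Finset.mul_sum]
      refine Finset.sum_congr rfl fun n _ => ?_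
      have h4 : e ((f a + lo m c n) + lo k θ ((a + n : ℕ) : ℝ)) = e (f a) * e (lo k θ ((a + n : ℕ) : ℝ) + lo m c n) := by
        rw [← e_add]
        congr 1
        ring
      rw [h4]
      ring
    rw [h3]
    ring
  rw [h2]
  refine (norm_add_le _ _).trans ?_
  have h3 : ‖e (f a) * bsB k m M b' a θ c‖ ≤ K * (a : ℝ) ^ β := by
    rw [norm_mul, e_norm, one_mul]
    exact hG a M ha (hML.trans hLa) c
  have h4 : ‖∑ n ∈ Icc 1 M, b' (a + n) * (e (f ((a + n : ℕ) : ℝ) + lo k θ ((a + n : ℕ) : ℝ)) -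
      e ((f a + lo m c n) + lo k θ ((a + n : ℕ) : ℝ)))‖ ≤ L * (2 * Real.pi * (C * (L : ℝ) ^ (m + 1))) := by
    refine (norm_sum_le _ _).trans ?_
    have h5 : ∀ n ∈ Icc 1 M, ‖b' (a + n) * (e (f ((a + n : ℕ) : ℝ) + lo k θ ((a + n : ℕ) : ℝ)) -
      e ((f a + lo m c n) + lo k θ ((a + n : ℕ) : ℝ)))‖ ≤ 2 * Real.pi * (C * (L : ℝ) ^ (m + 1)) := by
      intro n hn
      rw [norm_mul]
      have h6 : ‖e (f ((a + n : ℕ) : ℝ) + lo k θ ((a + n : ℕ) : ℝ)) -
          e ((f a + lo m c n) + lo k θ ((a + n : ℕ) : ℝ))‖ ≤ 2 * Real.pi * (C * (L : ℝ) ^ (m + 1)) := by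
        refine (e_lip _ _).trans (mul_le_mul_of_nonneg_left ?_ (by positivity))
        rw [add_sub_add_right_eq_sub]
        exact h1 n hn
      calc ‖b' (a + n)‖ * ‖e (f ((a + n : ℕ) : ℝ) + lo k θ ((a + n : ℕ) : ℝ)) -
          e ((f a + lo m c n) + lo k θ ((a + n : ℕ) : ℝ))‖ ≤ 1 * (2 * Real.pi * (C * (L : ℝ) ^ (m + 1))) :=
            mul_le_mul (hb' _) h6 (norm_nonneg _) zero_le_one
        _ = _ := one_mul _
    refine (Finset.sum_le_card_nsmul _ _ _ h5).trans ?_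
    rw [Nat.card_Icc, Nat.add_sub_cancel, nsmul_eq_mul]
    exact mul_le_mul_of_nonneg_right (by exact_mod_cast hML) (by positivity)
  linarith

/-- **the deterministic part** -/
theorem detB {k m : ℕ} {b' : ℕ → ℂ} (hb' : ∀ n, ‖b' n‖ ≤ 1) {θ : Fin k → ℝ} {ε : ℝ} (hε : 0 < ε) (hm : 1 / (2 * ε) + 1 ≤ ε / 2 * (m + 1))
    (hG : GoodB k m b' (1 / 2 + ε / 2) θ) (C : ℝ) (hCm : 0 < C) :
    ∃ K : ℝ, 1 ≤ K ∧ ∀ N N' F : ℝ, ∀ f : ℝ → ℝ, 2 ≤ N → N ≤ N' → N' ≤ 2 * N → N ≤ F →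
      ContDiffOn ℝ ((m + 1 : ℕ) : WithTop ℕ∞) f (Set.Icc N (2 * N)) →
      (∀ x ∈ Set.Icc N (2 * N), |iteratedDerivWithin (m + 1) f (Set.Icc N (2 * N)) x| ≤ C * F / N ^ (m + 1)) →
      ‖∑ n ∈ Finset.Icc ⌈N⌉₊ ⌊N'⌋₊, b' n * e (f n + lo k θ n)‖ ≤ K * N ^ (1 / 2 : ℝ) * F ^ ε := by
  obtain ⟨K, hK, hG⟩ := hG
  obtain ⟨E, hE⟩ : ∃ E : ℝ, E = 4 * Real.pi * C * 2 ^ (m + 1) := ⟨_, rfl⟩
  have hE0 : 0 < E := by rw [hE]; positivity
  refine ⟨1 + 3 * (2 * K + E), by linarith, ?_⟩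
  intro N N' F f hN2 hNN' hN'2 hNF hf hder
  have hN0 : 0 < N := by linarith
  have hN1 : 1 ≤ N := by linarith
  have hF0 : 0 < F := by linarith
  have hFe : 0 < F ^ ε := Real.rpow_pos_of_pos hF0 _
  have hNh : 0 < N ^ (1 / 2 : ℝ) := Real.rpow_pos_of_pos hN0 _
  have hNN : N ^ (1 / 2 : ℝ) * N ^ (1 / 2 : ℝ) = N := by
    rw [← Real.rpow_add hN0]; norm_num
  -- number of terms
  have hcard : ((Finset.Icc ⌈N⌉₊ ⌊N'⌋₊).card : ℝ) ≤ 2 * N := by
    rw [Nat.card_Icc]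
    rcases Nat.lt_or_ge ⌊N'⌋₊ ⌈N⌉₊ with h | h
    · have : ⌊N'⌋₊ + 1 - ⌈N⌉₊ = 0 := by omega
      rw [this]; push_cast; linarith
    · rw [Nat.cast_sub (by omega)]
      push_cast
      have h1 := Nat.floor_le (by linarith : 0 ≤ N')
      have h2 := Nat.le_ceil N
      linarith
  have hterm : ∀ n : ℕ, ‖b' n * e (f n + lo k θ n)‖ ≤ 1 := by
    intro n
    rw [norm_mul, e_norm, mul_one]
    exact hb' n
  rcases le_or_gt (N ^ (1 / 2 : ℝ)) (F ^ ε) with hcase | hcase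
  · have h1 : ‖∑ n ∈ Finset.Icc ⌈N⌉₊ ⌊N'⌋₊, b' n * e (f n + lo k θ n)‖ ≤ 2 * N := by
      refine (norm_sum_le _ _).trans ?_
      refine (Finset.sum_le_card_nsmul _ _ 1 fun n _ => hterm n).trans ?_
      rw [nsmul_eq_mul, mul_one]
      exact hcard
    refine h1.trans ?_
    have h2 : 2 * N ≤ 2 * (N ^ (1 / 2 : ℝ) * F ^ ε) := by
      have := mul_le_mul_of_nonneg_left hcase hNh.le
      linarith
    refine h2.trans ?_
    rw [mul_assoc]
    refine mul_le_mul_of_nonneg_right ?_ (by positivity)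
    linarith
  · -- the main case
    have hF1 : F ≤ N ^ (1 / (2 * ε)) := by
      have h1 : F ^ ε ≤ N ^ (1 / 2 : ℝ) := hcase.le
      have h2 := Real.rpow_le_rpow hFe.le h1 (by positivity : (0 : ℝ) ≤ 1 / ε)
      rw [← Real.rpow_mul hF0.le, ← Real.rpow_mul hN0.le] at h2
      have e1 : ε * (1 / ε) = 1 := by field_simp
      have e2 : (1 / 2 : ℝ) * (1 / ε) = 1 / (2 * ε) := by field_simp
      rw [e1, e2, Real.rpow_one] at h2
      exact h2
    have hεh : ε < 1 / 2 := by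
      by_contra hcon
      push Not at hcon
      have h1 : N ^ (1 / 2 : ℝ) ≤ N ^ ε := Real.rpow_le_rpow_of_exponent_le hN1 hcon
      have h2 : N ^ ε ≤ F ^ ε := Real.rpow_le_rpow hN0.le hNF hε.le
      linarith
    obtain ⟨δ, hδ⟩ : ∃ δ : ℝ, δ = ε / 2 := ⟨_, rfl⟩
    have hδ0 : 0 < δ := by linarith
    rw [← hδ] at hm
    obtain ⟨X, hX⟩ : ∃ X : ℝ, X = N ^ (1 - δ) := ⟨_, rfl⟩
    have hX1 : 1 ≤ X := by rw [hX]; exact Real.one_le_rpow hN1 (by linarith)
    have hXN : X ≤ N := by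
      rw [hX]
      calc N ^ (1 - δ) ≤ N ^ (1 : ℝ) := Real.rpow_le_rpow_of_exponent_le hN1 (by linarith)
        _ = N := Real.rpow_one N
    have hXd : X * N ^ δ = N := by
      rw [hX, ← Real.rpow_add hN0]; simp
    have hNd : 1 ≤ N ^ δ := Real.one_le_rpow hN1 hδ0.le
    obtain ⟨L, hL⟩ : ∃ L : ℕ, L = ⌈X⌉₊ := ⟨_, rfl⟩
    have hLX : X ≤ L := by rw [hL]; exact Nat.le_ceil X
    have hL2 : (L : ℝ) ≤ 2 * X := by
      have := Nat.ceil_lt_add_one (by linarith : 0 ≤ X)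
      rw [← hL] at this
      linarith
    have hLN : L ≤ ⌈N⌉₊ := by rw [hL]; exact Nat.ceil_mono hXN
    obtain ⟨T, hT⟩ : ∃ T : ℕ, T = ⌈(N + 1) / X⌉₊ := ⟨_, rfl⟩
    have hTX : N + 1 ≤ T * X := by
      have := Nat.le_ceil ((N + 1) / X)
      rw [← hT, div_le_iff₀ (by linarith)] at this
      exact this
    have hT3 : (T : ℝ) ≤ 3 * N ^ δ := by
      have h1 := Nat.ceil_lt_add_one (by positivity : 0 ≤ (N + 1) / X)
      rw [← hT] at h1
      have h2 : (N + 1) / X ≤ 2 * N ^ δ := by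
        rw [div_le_iff₀ (by linarith)]
        nlinarith
      linarith
    have hTL : N + 1 ≤ T * L := hTX.trans (mul_le_mul_of_nonneg_left hLX (by positivity))
    rcases Nat.lt_or_ge ⌊N'⌋₊ ⌈N⌉₊ with hlt | hge
    · rw [Finset.Icc_eq_empty_of_lt hlt, Finset.sum_empty, norm_zero]
      positivity
    have hB : (⌊N'⌋₊ : ℝ) ≤ N' := Nat.floor_le (by linarith)
    have hA : N ≤ (⌈N⌉₊ : ℝ) := Nat.le_ceil N
    have hA1 : 1 ≤ ⌈N⌉₊ := Nat.one_le_iff_ne_zero.2 (by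
      intro h
      rw [h] at hA
      push_cast at hA
      linarith)
    have hNβ : 1 ≤ N ^ (1 / 2 + ε / 2) := Real.one_le_rpow hN1 (by linarith)
    have hblk := blocks (fun n : ℕ => b' n * e (f n + lo k θ n)) ⌈N⌉₊ ⌊N'⌋₊ L ((2 * K + E) * N ^ (1 / 2 + ε / 2)) (by
      intro a b ha hab hb hbL
      have haN : N ≤ (a : ℝ) := hA.trans (by exact_mod_cast ha)
      have hbN : (b : ℝ) ≤ 2 * N := by
        have : (b : ℝ) ≤ (⌊N'⌋₊ : ℝ) := by exact_mod_cast hb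
        linarith
      have h1 := block_leB (k := k) (m := m) hb' (θ := θ) (β := 1 / 2 + ε / 2) hK hG hf
        (C := C * F / N ^ (m + 1)) (by positivity) hder (a := a) (b := b) (L := L) haN hab hbN hbL
        (hLN.trans ha) (hA1.trans ha)
      refine h1.trans ?_
      have ha2 : (a : ℝ) ≤ 2 * N := by
        have : (a : ℝ) ≤ b := by exact_mod_cast hab
        linarith
      have h2 : (a : ℝ) ^ (1 / 2 + ε / 2) ≤ 2 * N ^ (1 / 2 + ε / 2) := by
        refine (Real.rpow_le_rpow (by positivity) ha2 (by linarith)).trans ?_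
        rw [Real.mul_rpow (by norm_num) hN0.le]
        refine mul_le_mul_of_nonneg_right ?_ (by positivity)
        calc (2 : ℝ) ^ (1 / 2 + ε / 2) ≤ 2 ^ (1 : ℝ) := Real.rpow_le_rpow_of_exponent_le (by norm_num) (by linarith)
          _ = 2 := Real.rpow_one 2
      have h3 : (L : ℝ) * (2 * Real.pi * (C * F / N ^ (m + 1) * (L : ℝ) ^ (m + 1))) ≤ E := by
        have h4 : (L : ℝ) ^ (m + 1) ≤ 2 ^ (m + 1) * (N ^ (m + 1) * N ^ (-(δ * (m + 1)))) := by
          refine (pow_le_pow_left₀ (by positivity) hL2 _).trans (le_of_eq ?_)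
          rw [mul_pow]
          congr 1
          rw [hX, ← Real.rpow_natCast, ← Real.rpow_mul hN0.le, ← Real.rpow_natCast N, ← Real.rpow_add hN0]
          congr 1
          push_cast
          ring
        have h5 : F * N ^ (-(δ * (m + 1))) ≤ N⁻¹ := by
          refine (mul_le_mul_of_nonneg_right hF1 (by positivity)).trans ?_
          rw [← Real.rpow_add hN0, ← Real.rpow_neg_one]
          apply Real.rpow_le_rpow_of_exponent_le hN1
          linarith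
        have h6 : (L : ℝ) ≤ 2 * N := by linarith
        have h7 : C * F / N ^ (m + 1) * (L : ℝ) ^ (m + 1) ≤ C * 2 ^ (m + 1) * N⁻¹ := by
          have h8 : C * F / N ^ (m + 1) * (L : ℝ) ^ (m + 1) ≤ C * F / N ^ (m + 1) *
              (2 ^ (m + 1) * (N ^ (m + 1) * N ^ (-(δ * (m + 1))))) := mul_le_mul_of_nonneg_left h4 (by positivity)
          refine h8.trans ?_
          have h9 : C * F / N ^ (m + 1) * (2 ^ (m + 1) * (N ^ (m + 1) * N ^ (-(δ * (m + 1))))) =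
              C * 2 ^ (m + 1) * (F * N ^ (-(δ * (m + 1)))) := by
            field_simp
          rw [h9]
          exact mul_le_mul_of_nonneg_left h5 (by positivity)
        calc (L : ℝ) * (2 * Real.pi * (C * F / N ^ (m + 1) * (L : ℝ) ^ (m + 1)))
            ≤ (2 * N) * (2 * Real.pi * (C * 2 ^ (m + 1) * N⁻¹)) :=
              mul_le_mul h6 (mul_le_mul_of_nonneg_left h7 (by positivity)) (by positivity) (by positivity)
          _ = E := by rw [hE]; field_simp; ring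
      have h4 : K * (a : ℝ) ^ (1 / 2 + ε / 2) ≤ 2 * K * N ^ (1 / 2 + ε / 2) := by
        calc K * (a : ℝ) ^ (1 / 2 + ε / 2) ≤ K * (2 * N ^ (1 / 2 + ε / 2)) := mul_le_mul_of_nonneg_left h2 (by linarith)
          _ = _ := by ring
      nlinarith) T ⌈N⌉₊ le_rfl hge (by
      have h1 : (⌊N'⌋₊ : ℝ) ≤ ((⌈N⌉₊ + T * L : ℕ) : ℝ) := by
        push_cast
        linarith
      exact_mod_cast h1)
    have hsplit : ∑ n ∈ Finset.Icc ⌈N⌉₊ ⌊N'⌋₊, b' n * e (f n + lo k θ n) = b' ⌈N⌉₊ * e (f (⌈N⌉₊ : ℝ) + lo k θ (⌈N⌉₊ : ℝ)) +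
        ∑ n ∈ Ioc ⌈N⌉₊ ⌊N'⌋₊, b' n * e (f n + lo k θ n) := by
      rw [← Finset.add_sum_Ioc_eq_sum_Icc hge]
    rw [hsplit]
    refine (norm_add_le _ _).trans ?_
    have h1 : (T : ℝ) * ((2 * K + E) * N ^ (1 / 2 + ε / 2)) ≤ 3 * (2 * K + E) * N ^ (1 / 2 + ε) := by
      have h2 : N ^ (1 / 2 + ε) = N ^ δ * N ^ (1 / 2 + ε / 2) := by
        rw [← Real.rpow_add hN0]
        congr 1
        rw [hδ]
        ring
      rw [h2]
      calc (T : ℝ) * ((2 * K + E) * N ^ (1 / 2 + ε / 2)) ≤ (3 * N ^ δ) * ((2 * K + E) * N ^ (1 / 2 + ε / 2)) :=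
            mul_le_mul_of_nonneg_right hT3 (by positivity)
        _ = _ := by ring
    have h2 : 1 ≤ N ^ (1 / 2 + ε) := Real.one_le_rpow hN1 (by linarith)
    have h3 : N ^ (1 / 2 + ε) ≤ N ^ (1 / 2 : ℝ) * F ^ ε := by
      rw [Real.rpow_add hN0]
      exact mul_le_mul_of_nonneg_left (Real.rpow_le_rpow hN0.le hNF hε.le) hNh.le
    have h4 : 1 + (T : ℝ) * ((2 * K + E) * N ^ (1 / 2 + ε / 2)) ≤ (1 + 3 * (2 * K + E)) * N ^ (1 / 2 + ε) := by
      linarith
    refine (add_le_add (hterm _) hblk).trans (h4.trans ?_)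
    rw [mul_assoc]
    exact mul_le_mul_of_nonneg_left h3 (by positivity)

theorem log_der (r : ℕ) (l u x : ℝ) (hl : 0 < l) (hlu : l < u) (hx : x ∈ Set.Icc l u) (t : ℝ) :
    |iteratedDerivWithin (r + 1) (fun y => t * Real.log y) (Set.Icc l u) x| ≤ |t| * (r.factorial : ℝ) / l ^ (r + 1) := by
  have hx0 : 0 < x := by linarith [hx.1]
  have hc : ContDiffAt ℝ ((r + 1 : ℕ) : WithTop ℕ∞) (fun y => t * Real.log y) x :=
    contDiffAt_const.mul (Real.contDiffAt_log.2 hx0.ne')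
  rw [iteratedDerivWithin_eq_iteratedDeriv (uniqueDiffOn_Icc hlu) hc hx]
  have h1 : iteratedDeriv (r + 1) (fun y => t * Real.log y) x = t * iteratedDeriv (r + 1) Real.log x := by
    rw [iteratedDeriv_const_mul]
    exact Real.contDiffAt_log.2 hx0.ne'
  rw [h1, iteratedDeriv_succ', Real.deriv_log', iteratedDeriv_eq_iterate]
  rw [iter_deriv_inv, abs_mul, abs_mul, abs_mul, abs_pow, abs_neg, abs_one, one_pow, one_mul, Nat.abs_cast, abs_zpow,
    abs_of_pos hx0]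
  have h2 : x ^ (-1 - r : ℤ) = 1 / x ^ (r + 1) := by
    rw [show (-1 - r : ℤ) = -((r + 1 : ℕ) : ℤ) by push_cast; ring, zpow_neg, zpow_natCast, one_div]
  rw [h2, mul_div_assoc]
  refine mul_le_mul_of_nonneg_left ?_ (abs_nonneg _)
  rw [mul_one_div]
  exact div_le_div_of_nonneg_left (by positivity) (by positivity) (pow_le_pow_left₀ hl.le hx.1 _)

theorem poly_smooth (Q : Polynomial ℝ) (n : WithTop ℕ∞) : ContDiff ℝ n (fun y => Q.eval y) := by
  have h := Polynomial.contDiff_aeval (R := ℝ) (𝕜 := ℝ) Q n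
  simpa [Polynomial.coe_aeval_eq_eval] using h

theorem poly_der (Q : Polynomial ℝ) (r : ℕ) (hQ : Q.natDegree ≤ r) (l u x : ℝ) (hlu : l < u) (hx : x ∈ Set.Icc l u) :
    iteratedDerivWithin (r + 1) (fun y => Q.eval y) (Set.Icc l u) x = 0 := by
  rw [iteratedDerivWithin_eq_iteratedDeriv (uniqueDiffOn_Icc hlu) (poly_smooth Q _).contDiffAt hx]
  rw [iteratedDeriv_eq_iterate]
  have : ∀ n : ℕ, deriv^[n] (fun y => Q.eval y) = fun y => (Polynomial.derivative^[n] Q).eval y := by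
    intro n
    induction n with
    | zero => rfl
    | succ n ih =>
      rw [Function.iterate_succ_apply', ih, Function.iterate_succ_apply']
      funext y
      exact Polynomial.deriv _
  rw [this, Polynomial.iterate_derivative_eq_zero (by omega)]
  simp

/-- the derivative of order `m + 1` of `t log x + Q(x)` -/
theorem logpoly_der (m : ℕ) (l : ℝ) (hl : 1 ≤ l) (t : ℝ) (Q : Polynomial ℝ) (hQ : Q.natDegree ≤ m) (x : ℝ)
    (hx : x ∈ Set.Icc l (2 * l)) :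
    |iteratedDerivWithin (m + 1) (fun y => t * Real.log y + Q.eval y) (Set.Icc l (2 * l)) x| ≤
      |t| * (m.factorial : ℝ) / l ^ (m + 1) := by
  have hl0 : 0 < l := by linarith
  have hlu : l < 2 * l := by linarith
  have hx0 : 0 < x := by linarith [hx.1]
  rw [iteratedDerivWithin_fun_add hx (uniqueDiffOn_Icc hlu)
    (contDiffAt_const.mul (Real.contDiffAt_log.2 hx0.ne')).contDiffWithinAt
    (poly_smooth Q _).contDiffAt.contDiffWithinAt, poly_der Q m hQ l (2 * l) x hlu hx, add_zero]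
  exact log_der m l (2 * l) x hl0 hlu hx t

theorem logpoly_smooth (n : WithTop ℕ∞) (l : ℝ) (hl : 1 ≤ l) (t : ℝ) (Q : Polynomial ℝ) :
    ContDiffOn ℝ n (fun y => t * Real.log y + Q.eval y) (Set.Icc l (2 * l)) := by
  intro x hx
  have hx0 : 0 < x := by linarith [hx.1]
  exact ((contDiffAt_const.mul (Real.contDiffAt_log.2 hx0.ne')).add (poly_smooth Q _).contDiffAt).contDiffWithinAt

end Pool.Agent.U922.XR
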