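import Pool.Agent.U922.XR.B

/-! # Dirichlet polynomials with arbitrary bounded coefficients and a generic polynomial phase -/

set_option autoImplicit false

open Finset MeasureTheory
open scoped Nat

namespace Pool.Agent.U922.XR

open Pool.Agent.U922.MV Pool.Agent.U922.XP
open Pool.Agent.W928.MW (e e_add e_norm)
open Pool.Agent.helper132_dc (sk sk_pos)

theorem dyadic (g : ℕ → ℂ) (c R : ℝ) (hc : 1 ≤ c) (hR : 1 ≤ R) (hg : ‖g 1‖ ≤ 1) (N0 : ℕ)
    (h : ∀ N : ℕ, 2 ≤ N → N ≤ N0 → ‖∑ n ∈ Icc (N / 2 + 1) N, g n‖ ≤ c * (N : ℝ) ^ (1 / 2 : ℝ) * R) :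
    ∀ N : ℕ, N ≤ N0 → ‖∑ n ∈ Icc 1 N, g n‖ ≤ 4 * c * (N : ℝ) ^ (1 / 2 : ℝ) * R := by
  intro N
  induction N using Nat.strong_induction_on with
  | _ N ih =>
    intro hN
    rcases Nat.lt_or_ge N 2 with h2 | h2
    · rcases Nat.lt_or_ge N 1 with h1 | h1
      · have : N = 0 := by omega
        subst this
        simp only [Finset.Icc_eq_empty_of_lt (Nat.zero_lt_one), Finset.sum_empty, norm_zero]
        positivity
      · have : N = 1 := by omega
        subst this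
        simp only [Finset.Icc_self, Finset.sum_singleton, Nat.cast_one, Real.one_rpow, mul_one]
        nlinarith
    · have hsplit : ∑ n ∈ Icc 1 N, g n = ∑ n ∈ Icc 1 (N / 2), g n + ∑ n ∈ Icc (N / 2 + 1) N, g n := by
        have h3 : Icc 1 N = Icc 1 (N / 2) ∪ Icc (N / 2 + 1) N := by
          ext n
          simp only [Finset.mem_union, Finset.mem_Icc]
          omega
        rw [h3, Finset.sum_union]
        rw [Finset.disjoint_left]
        intro n h4 h5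
        rw [Finset.mem_Icc] at h4 h5
        omega
      have h3 := ih (N / 2) (by omega) (by omega)
      have h4 := h N h2 hN
      rw [hsplit]
      refine (norm_add_le _ _).trans ?_
      have hN0 : (0 : ℝ) ≤ N := by positivity
      have h5 : (((N / 2 : ℕ) : ℝ)) ^ (1 / 2 : ℝ) ≤ 3 / 4 * (N : ℝ) ^ (1 / 2 : ℝ) := by
        have h6 : ((N / 2 : ℕ) : ℝ) ≤ (9 / 16) * (N : ℝ) := by
          have := Nat.cast_div_le (α := ℝ) (m := N) (n := 2)
          push_cast at this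
          linarith
        calc (((N / 2 : ℕ) : ℝ)) ^ (1 / 2 : ℝ) ≤ ((9 / 16) * (N : ℝ)) ^ (1 / 2 : ℝ) :=
              Real.rpow_le_rpow (by positivity) h6 (by norm_num)
          _ = (9 / 16 : ℝ) ^ (1 / 2 : ℝ) * (N : ℝ) ^ (1 / 2 : ℝ) := Real.mul_rpow (by norm_num) hN0
          _ = 3 / 4 * (N : ℝ) ^ (1 / 2 : ℝ) := by
            congr 1
            rw [← Real.sqrt_eq_rpow, show (9 / 16 : ℝ) = (3 / 4) ^ 2 by norm_num, Real.sqrt_sq (by norm_num)]
      have h7 : 0 ≤ (N : ℝ) ^ (1 / 2 : ℝ) := by positivity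
      have h8 : 4 * c * (((N / 2 : ℕ) : ℝ)) ^ (1 / 2 : ℝ) * R ≤ 4 * c * (3 / 4 * (N : ℝ) ^ (1 / 2 : ℝ)) * R :=
        mul_le_mul_of_nonneg_right (mul_le_mul_of_nonneg_left h5 (by positivity)) (by positivity)
      have h9 : 4 * c * (3 / 4 * (N : ℝ) ^ (1 / 2 : ℝ)) * R + c * (N : ℝ) ^ (1 / 2 : ℝ) * R =
          4 * c * (N : ℝ) ^ (1 / 2 : ℝ) * R := by ring
      linarith

/-- **main theorem** -/
theorem main (A ε : ℝ) (hA : 1 ≤ A) (hε : 0 < ε) (hε2 : ε ≤ 1 / 2) (k : ℕ) (hk : 3 * (A / ε) ^ 3 ≤ k)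
    (b : ℕ → ℂ) (hb : ∀ n, ‖b n‖ ≤ 1) : ∀ᵐ θ : Fin k → ℝ, ∃ K : ℝ, 1 ≤ K ∧ ∀ N : ℕ, 1 ≤ N → ∀ t : ℝ,
      |t| ≤ (N : ℝ) ^ A → ∀ Q : Polynomial ℝ, Q.natDegree ≤ ⌊(A / ε) ^ 2 + 2 * (A / ε)⌋₊ →
      ‖∑ n ∈ Icc 1 N, b n * e ((t * Real.log n + Q.eval (n : ℝ)) + lo k θ n)‖ ≤ K * (N : ℝ) ^ (1 / 2 + ε) := by
  have hA0 : 0 < A := by linarith
  obtain ⟨ε0, hε0⟩ : ∃ ε0 : ℝ, ε0 = ε / A := ⟨_, rfl⟩
  have hε00 : 0 < ε0 := by rw [hε0]; positivity
  have hε02 : ε0 ≤ 1 / 2 := by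
    rw [hε0, div_le_iff₀ hA0]
    nlinarith
  have hk' : 3 / ε0 ^ 3 ≤ k := by
    refine le_trans (le_of_eq ?_) hk
    rw [hε0]
    field_simp
  obtain ⟨m, hm, h1, h2⟩ := params ε0 hε00 hε02 k hk'
  have hm' : m = ⌊(A / ε) ^ 2 + 2 * (A / ε)⌋₊ := by
    rw [hm]
    congr 1
    rw [hε0]
    field_simp
  rw [← hm']
  have hk0 : (0 : ℝ) < k := lt_of_lt_of_le (by positivity) hk
  have hk1 : 1 ≤ k := by
    have : 0 < k := by exact_mod_cast hk0
    omega
  apply ae_of_box k {θ : Fin k → ℝ | ∃ K : ℝ, 1 ≤ K ∧ ∀ N : ℕ, 1 ≤ N → ∀ t : ℝ,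
      |t| ≤ (N : ℝ) ^ A → ∀ Q : Polynomial ℝ, Q.natDegree ≤ m →
      ‖∑ n ∈ Icc 1 N, b n * e ((t * Real.log n + Q.eval (n : ℝ)) + lo k θ n)‖ ≤ K * (N : ℝ) ^ (1 / 2 + ε)}
  · rintro θ z ⟨K, hK1, hK⟩
    refine ⟨K, hK1, fun N hN t ht Q hQ => ?_⟩
    refine le_trans (le_of_eq ?_) (hK N hN t ht Q hQ)
    congr 1
    refine Finset.sum_congr rfl fun n _ => ?_
    rw [e_lo_per]
  · filter_upwards [ae_goodB k m hk1 (sk_pos k hk1) b hb _ h2] with θ hθ
    obtain ⟨K, hK1, hK⟩ := detB hb hε00 h1 hθ (m ! : ℝ) (by exact_mod_cast Nat.factorial_pos m)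
    refine ⟨4 * K, by linarith, fun N hN t ht Q hQ => ?_⟩
    have hN1 : (1 : ℝ) ≤ N := by exact_mod_cast hN
    have hN0 : (0 : ℝ) < N := by linarith
    have hR : (1 : ℝ) ≤ (N : ℝ) ^ ε := Real.one_le_rpow hN1 hε.le
    have hd := dyadic (fun n : ℕ => b n * e ((t * Real.log n + Q.eval (n : ℝ)) + lo k θ n)) K ((N : ℝ) ^ ε) hK1 hR
      (by rw [norm_mul, e_norm, mul_one]; exact hb 1) N (by
        intro M hM2 hMN
        have hM2' : (2 : ℝ) ≤ ((M / 2 + 1 : ℕ) : ℝ) := by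
          have : 2 ≤ M / 2 + 1 := by omega
          exact_mod_cast this
        have hM3 : ((M / 2 + 1 : ℕ) : ℝ) ≤ (M : ℝ) := by
          have : M / 2 + 1 ≤ M := by omega
          exact_mod_cast this
        have hM4 : (M : ℝ) ≤ 2 * ((M / 2 + 1 : ℕ) : ℝ) := by
          have : M ≤ 2 * (M / 2 + 1) := by omega
          exact_mod_cast this
        have hMN' : (M : ℝ) ≤ N := by exact_mod_cast hMN
        obtain ⟨X, hX⟩ : ∃ X : ℝ, X = ((M / 2 + 1 : ℕ) : ℝ) := ⟨_, rfl⟩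
        obtain ⟨F, hF⟩ : ∃ F : ℝ, F = max X |t| := ⟨_, rfl⟩
        rw [← hX] at hM2' hM3 hM4
        have hXF : X ≤ F := by rw [hF]; exact le_max_left _ _
        have hF0 : 0 < F := by linarith
        have h3 := hK X M F (fun y => t * Real.log y + Q.eval y) hM2' hM3 hM4 hXF
          (logpoly_smooth _ X (by linarith) t Q) (by
            intro x hx
            refine (logpoly_der m X (by linarith) t Q hQ x hx).trans ?_
            have h4 : |t| ≤ F := by rw [hF]; exact le_max_right _ _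
            have h5 : 0 < X ^ (m + 1) := by positivity
            rw [mul_comm]
            exact div_le_div_of_nonneg_right (mul_le_mul_of_nonneg_left h4 (by positivity)) h5.le)
        have e1 : ⌈X⌉₊ = M / 2 + 1 := by rw [hX]; exact Nat.ceil_natCast _
        have e2 : ⌊(M : ℝ)⌋₊ = M := Nat.floor_natCast _
        rw [e1, e2] at h3
        refine h3.trans ?_
        have h4 : X ^ (1 / 2 : ℝ) ≤ (M : ℝ) ^ (1 / 2 : ℝ) := Real.rpow_le_rpow (by linarith) hM3 (by norm_num)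
        have hFN : F ≤ (N : ℝ) ^ A := by
          rw [hF]
          refine max_le ?_ ht
          calc X ≤ N := hM3.trans hMN'
            _ = (N : ℝ) ^ (1 : ℝ) := (Real.rpow_one _).symm
            _ ≤ _ := Real.rpow_le_rpow_of_exponent_le hN1 hA
        have h5 : F ^ ε0 ≤ (N : ℝ) ^ ε := by
          refine (Real.rpow_le_rpow hF0.le hFN hε00.le).trans (le_of_eq ?_)
          rw [← Real.rpow_mul hN0.le]
          congr 1
          rw [hε0]
          field_simp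
        exact mul_le_mul (mul_le_mul_of_nonneg_left h4 (by linarith)) h5 (by positivity) (by positivity)) N le_rfl
    refine hd.trans (le_of_eq ?_)
    rw [Real.rpow_add hN0]
    ring

end Pool.Agent.U922.XR
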