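import Pool.Agent.U922.XR.A

/-! # Sharp exponents for the supremum over the lower-order terms, arbitrary bounded coefficients -/

set_option autoImplicit false

open Finset MeasureTheory

namespace Pool.Agent.U922.XR

open Pool.Agent.U922.MV Pool.Agent.U922.XP
open Pool.Agent.W928.MW (e e_add e_norm)
open Pool.Agent.TH181.MW (tup e_zero max_le)
open Pool.Agent.helper132_dc (sk sk_pos)

theorem ae_dy (k m : ℕ) (hk : 1 ≤ k) (b : ℕ → ℂ) (hb : ∀ n, ‖b n‖ ≤ 1) (η : ℝ) (hη : 0 < η) :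
    ∀ᵐ θ ∂(box k), ∃ K : ℝ, 1 ≤ K ∧ ∀ i : ℕ,
      BQB (sk k) k m (2 ^ i) b 0 θ ≤ K * ((2 : ℝ) ^ i) ^ ((sk k : ℝ) + η) := by
  obtain ⟨C, hC, hJ⟩ := jv_bound (k - 1) k (by omega) (η / 2) (by linarith)
  have e1 : k - 1 + 1 = k := by omega
  rw [e1] at hJ
  obtain ⟨s, hs⟩ : ∃ s, s = sk k := ⟨_, rfl⟩
  rw [← hs] at hJ ⊢
  set F : ℕ → (Fin k → ℝ) → ENNReal := fun i θ =>
    ENNReal.ofReal (BQB s k m (2 ^ i) b 0 θ) * ENNReal.ofReal (1 / ((2 : ℝ) ^ i) ^ ((s : ℝ) + η)) with hF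
  have hm1 : ∀ i : ℕ, Measurable (fun θ => ENNReal.ofReal (BQB s k m (2 ^ i) b 0 θ)) := fun i =>
    (BQB_cont s k m (2 ^ i) b 0).measurable.ennreal_ofReal
  have hmF : ∀ i, Measurable (F i) := by
    intro i
    rw [hF]
    exact (hm1 i).mul_const _
  have hFa : ∀ i : ℕ, ∫⁻ θ, F i θ ∂(box k) ≤ ENNReal.ofReal (C * ((2 : ℝ) ^ (-(η / 2))) ^ i) := by
    intro i
    rw [hF]
    simp only
    rw [lintegral_mul_const _ (hm1 i)]
    refine (mul_le_mul_left (lint_BQB s k m (2 ^ i) b hb 0 hk) _).trans ?_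
    have hp : (0 : ℝ) < (2 : ℝ) ^ i := by positivity
    rw [← ENNReal.ofReal_mul (by positivity)]
    apply ENNReal.ofReal_le_ofReal
    have h2 := hJ (2 ^ i) Nat.one_le_two_pow
    push_cast at h2
    refine (mul_le_mul_of_nonneg_right h2 (by positivity)).trans (le_of_eq ?_)
    have h3 : ((2 : ℝ) ^ i) ^ ((s : ℝ) + η) = ((2 : ℝ) ^ i) ^ ((s : ℝ) + η / 2) * ((2 : ℝ) ^ i) ^ (η / 2) := by
      rw [← Real.rpow_add hp]
      congr 1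
      ring
    have h4 : ((2 : ℝ) ^ (-(η / 2))) ^ i = 1 / ((2 : ℝ) ^ i) ^ (η / 2) := by
      rw [← Real.rpow_natCast ((2 : ℝ) ^ (-(η / 2))) i, ← Real.rpow_mul (by norm_num), ← Real.rpow_natCast 2 i,
        ← Real.rpow_mul (by norm_num), one_div, ← Real.rpow_neg (by norm_num)]
      congr 1
      ring
    rw [h3, h4]
    have h5 : (0 : ℝ) < ((2 : ℝ) ^ i) ^ ((s : ℝ) + η / 2) := Real.rpow_pos_of_pos hp _
    have h6 : (0 : ℝ) < ((2 : ℝ) ^ i) ^ (η / 2) := Real.rpow_pos_of_pos hp _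
    field_simp
  have hfin : ∫⁻ θ, ∑' i, F i θ ∂(box k) ≠ ⊤ := by
    rw [lintegral_tsum fun i => (hmF i).aemeasurable]
    refine ne_top_of_le_ne_top ?_ (ENNReal.tsum_le_tsum hFa)
    refine Summable.tsum_ofReal_ne_top (Summable.mul_left C (summable_geometric_of_lt_one (by positivity) ?_))
    exact Real.rpow_lt_one_of_one_lt_of_neg (by norm_num) (by linarith)
  have hae := ae_lt_top (Measurable.tsum hmF) hfin
  filter_upwards [hae] with θ hθ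
  refine ⟨max 1 (∑' i, F i θ).toReal, le_max_left _ _, fun i => ?_⟩
  have hp : (0 : ℝ) < (2 : ℝ) ^ i := by positivity
  have h1 : ENNReal.ofReal (BQB s k m (2 ^ i) b 0 θ) * ENNReal.ofReal (1 / ((2 : ℝ) ^ i) ^ ((s : ℝ) + η)) ≤ ∑' i, F i θ := by
    refine le_trans (le_of_eq ?_) (ENNReal.le_tsum i)
    rw [hF]
  rw [← ENNReal.ofReal_mul (BQB_nonneg _ _ _ _ _ _ _)] at h1
  have h2 := (ENNReal.ofReal_le_iff_le_toReal hθ.ne).1 h1
  have h3 := h2.trans (le_max_right 1 _)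
  have h4 : (0 : ℝ) < ((2 : ℝ) ^ i) ^ ((s : ℝ) + η) := Real.rpow_pos_of_pos hp _
  have h5 : BQB s k m (2 ^ i) b 0 θ = (BQB s k m (2 ^ i) b 0 θ * (1 / ((2 : ℝ) ^ i) ^ ((s : ℝ) + η))) *
      ((2 : ℝ) ^ i) ^ ((s : ℝ) + η) := by
    field_simp
  rw [h5]
  exact mul_le_mul_of_nonneg_right h3 h4.le

/-- incomplete sums -/
theorem bsB_max (k m N M : ℕ) (b : ℕ → ℂ) (θ : Fin k → ℝ) (K : ℝ) (hm : 1 ≤ m) (hN : 1 ≤ N) (hM : M ≤ N)
    (h : ∀ c : Fin m → ℝ, ‖bsB k m N b 0 θ c‖ ≤ K) (c : Fin m → ℝ) : ‖bsB k m M b 0 θ c‖ ≤ (2 + Real.log N) * K := by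
  have hlo : ∀ (η : ℝ) (n : ℝ), lo m c n + η * n = lo m (Function.update c ⟨0, hm⟩ (c ⟨0, hm⟩ + η)) n := by
    intro η n
    unfold lo
    rw [← Finset.add_sum_erase Finset.univ _ (Finset.mem_univ (⟨0, hm⟩ : Fin m)),
      ← Finset.add_sum_erase Finset.univ (fun j => Function.update c ⟨0, hm⟩ (c ⟨0, hm⟩ + η) j * n ^ ((j : ℕ) + 1))
        (Finset.mem_univ (⟨0, hm⟩ : Fin m))]
    rw [Function.update_self]
    have : ∑ x ∈ Finset.univ.erase (⟨0, hm⟩ : Fin m), c x * n ^ ((x : ℕ) + 1) =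
        ∑ x ∈ Finset.univ.erase (⟨0, hm⟩ : Fin m), Function.update c ⟨0, hm⟩ (c ⟨0, hm⟩ + η) x * n ^ ((x : ℕ) + 1) := by
      refine Finset.sum_congr rfl fun x hx => ?_
      rw [Function.update_of_ne (Finset.ne_of_mem_erase hx)]
    rw [this]
    ring
  have h1 := max_le N M hN hM (fun n => b (0 + n) * e (lo k θ ((0 + n : ℕ) : ℝ) + lo m c n)) K (fun η => by
    have h2 := h (Function.update c ⟨0, hm⟩ (c ⟨0, hm⟩ + η))
    unfold bsB at h2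
    refine le_trans (le_of_eq ?_) h2
    congr 1
    refine Finset.sum_congr rfl fun n _ => ?_
    rw [mul_assoc, ← e_add, ← hlo]
    congr 2
    ring) 0
  have h3 : ∑ n ∈ Icc 1 M, b (0 + n) * e (lo k θ ((0 + n : ℕ) : ℝ) + lo m c n) * e (0 * n) = bsB k m M b 0 θ c := by
    unfold bsB
    refine Finset.sum_congr rfl fun n _ => ?_
    rw [zero_mul, e_zero, mul_one]
  rw [h3] at h1
  exact h1

/-- **the supremum over the lower-order terms, all lengths** -/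
theorem ae_sup (k m : ℕ) (hk : 1 ≤ k) (hm : 1 ≤ m) (b : ℕ → ℂ) (hb : ∀ n, ‖b n‖ ≤ 1) (ε : ℝ) (hε : 0 < ε) :
    ∀ᵐ θ ∂(box k), ∃ K : ℝ, ∀ N : ℕ, 1 ≤ N → ∀ c : Fin m → ℝ,
      ‖bsB k m N b 0 θ c‖ ≤ K * (N : ℝ) ^ (1 / 2 + (m : ℝ) * (m + 1) / (2 * (k * (k + 1))) + ε) := by
  have hs1 := sk_pos k hk
  filter_upwards [ae_dy k m hk b hb (sk k * ε) (by
    have : (0 : ℝ) < sk k := by exact_mod_cast hs1
    positivity)] with θ hθ
  obtain ⟨K, hK, h⟩ := hθ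
  have h6 : 2 * (sk k : ℝ) = (k : ℝ) * (k + 1) := by
    have h7 : 2 * sk k = k * (k + 1) := by
      unfold sk
      exact Nat.mul_div_cancel' (Nat.even_mul_succ_self k).two_dvd
    exact_mod_cast h7
  obtain ⟨s, hs'⟩ : ∃ s, s = sk k := ⟨_, rfl⟩
  rw [← hs'] at h hs1 h6
  rw [← h6]
  have hsr : (1 : ℝ) ≤ s := by exact_mod_cast hs1
  have hs0 : (1 : ℝ) ≤ (s : ℝ) + 1 := by linarith
  have hK' : (1 : ℝ) ≤ ((s : ℝ) + 1) ^ m * K := by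
    have := one_le_pow₀ hs0 (n := m)
    nlinarith
  obtain ⟨β, hβ⟩ : ∃ β : ℝ, β = 1 / 2 + (m : ℝ) * (m + 1) / (2 * (2 * (s : ℝ))) + ε / 2 := ⟨_, rfl⟩
  have hmm : ((m * (m + 1) / 2 : ℕ) : ℝ) = (m : ℝ) * (m + 1) / 2 := by
    rw [Nat.cast_div (Nat.even_mul_succ_self m).two_dvd (by norm_num)]
    push_cast
    ring
  have hfull : ∀ i : ℕ, ∀ c : Fin m → ℝ, ‖bsB k m (2 ^ i) b 0 θ c‖ ≤ ((s : ℝ) + 1) ^ m * K * ((2 : ℝ) ^ i) ^ β := by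
    intro i c
    have hp : (0 : ℝ) < (2 : ℝ) ^ i := by positivity
    have h1 := sup_bsB s k m (2 ^ i) b 0 θ c
    have h2 := h i
    have h3 := card_VV s m (2 ^ i) Nat.one_le_two_pow
    push_cast at h3
    have h5 : ‖bsB k m (2 ^ i) b 0 θ c‖ ^ (2 * s) ≤
        (((s : ℝ) + 1) ^ m * ((2 : ℝ) ^ i) ^ (m * (m + 1) / 2)) * (K * ((2 : ℝ) ^ i) ^ ((s : ℝ) + s * ε)) :=
      h1.trans (mul_le_mul h3 h2 (BQB_nonneg _ _ _ _ _ _ _) (by positivity))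
    have h6' : ((2 : ℝ) ^ i) ^ (m * (m + 1) / 2) * ((2 : ℝ) ^ i) ^ ((s : ℝ) + s * ε) = (((2 : ℝ) ^ i) ^ β) ^ (2 * s) := by
      rw [← Real.rpow_natCast ((2 : ℝ) ^ i) (m * (m + 1) / 2), ← Real.rpow_add hp, ← Real.rpow_natCast (((2 : ℝ) ^ i) ^ β) (2 * s),
        ← Real.rpow_mul hp.le]
      congr 1
      rw [hmm, hβ]
      push_cast
      field_simp
      ring
    have h7 : ((s : ℝ) + 1) ^ m * K ≤ (((s : ℝ) + 1) ^ m * K) ^ (2 * s) := le_self_pow₀ hK' (by omega)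
    have h8 : ‖bsB k m (2 ^ i) b 0 θ c‖ ^ (2 * s) ≤ (((s : ℝ) + 1) ^ m * K * ((2 : ℝ) ^ i) ^ β) ^ (2 * s) := by
      rw [mul_pow, ← h6']
      refine h5.trans ?_
      calc (((s : ℝ) + 1) ^ m * ((2 : ℝ) ^ i) ^ (m * (m + 1) / 2)) * (K * ((2 : ℝ) ^ i) ^ ((s : ℝ) + s * ε))
          = (((s : ℝ) + 1) ^ m * K) * (((2 : ℝ) ^ i) ^ (m * (m + 1) / 2) * ((2 : ℝ) ^ i) ^ ((s : ℝ) + s * ε)) := by ring
        _ ≤ _ := mul_le_mul_of_nonneg_right h7 (by positivity)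
    exact le_of_pow_le_pow_left₀ (by omega) (by positivity) h8
  have hβ0 : 0 ≤ β := by rw [hβ]; positivity
  refine ⟨(2 + 4 / ε) * (((s : ℝ) + 1) ^ m * K) * 2 ^ (β + ε / 2), fun N hN c => ?_⟩
  have hN1 : (1 : ℝ) ≤ N := by exact_mod_cast hN
  have hN0 : (0 : ℝ) < N := by linarith
  obtain ⟨i, hi⟩ : ∃ i, i = Nat.clog 2 N := ⟨_, rfl⟩
  have hi1 : N ≤ 2 ^ i := by rw [hi]; exact Nat.le_pow_clog (by norm_num) N
  have hi2 : 2 ^ i ≤ 2 * N := by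
    rcases Nat.lt_or_ge 1 N with h1 | h1
    · have h2 : 2 ^ (i - 1) < N := by rw [hi]; exact Nat.pow_pred_clog_lt_self (by norm_num) h1
      have h3 : 1 ≤ i := by rw [hi]; exact Nat.clog_pos (by norm_num) h1
      have h4 : 2 ^ i = 2 * 2 ^ (i - 1) := by
        conv_lhs => rw [show i = (i - 1) + 1 by omega, pow_succ]
        ring
      omega
    · have : N = 1 := by omega
      subst this
      rw [hi]
      simp
  have hi2' : (2 : ℝ) ^ i ≤ 2 * N := by exact_mod_cast hi2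
  have hp : (0 : ℝ) < (2 : ℝ) ^ i := by positivity
  have hp1 : (1 : ℝ) ≤ (2 : ℝ) ^ i := one_le_pow₀ (by norm_num)
  have h1 := bsB_max k m (2 ^ i) N b θ _ hm Nat.one_le_two_pow hi1 (hfull i) c
  refine h1.trans ?_
  push_cast
  have h2 : 2 + Real.log ((2 : ℝ) ^ i) ≤ (2 + 4 / ε) * ((2 : ℝ) ^ i) ^ (ε / 2) := by
    have h3 := Real.log_le_rpow_div hp.le (by positivity : (0 : ℝ) < ε / 2)
    have h4 : 1 ≤ ((2 : ℝ) ^ i) ^ (ε / 2) := Real.one_le_rpow hp1 (by positivity)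
    have h5 : ((2 : ℝ) ^ i) ^ (ε / 2) / (ε / 2) = 2 / ε * ((2 : ℝ) ^ i) ^ (ε / 2) := by field_simp
    rw [h5] at h3
    have h6 : 2 / ε * ((2 : ℝ) ^ i) ^ (ε / 2) ≤ 4 / ε * ((2 : ℝ) ^ i) ^ (ε / 2) :=
      mul_le_mul_of_nonneg_right (div_le_div_of_nonneg_right (by norm_num) hε.le) (by positivity)
    nlinarith
  calc (2 + Real.log ((2 : ℝ) ^ i)) * (((s : ℝ) + 1) ^ m * K * ((2 : ℝ) ^ i) ^ β)
      ≤ ((2 + 4 / ε) * ((2 : ℝ) ^ i) ^ (ε / 2)) * (((s : ℝ) + 1) ^ m * K * ((2 : ℝ) ^ i) ^ β) :=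
        mul_le_mul_of_nonneg_right h2 (by positivity)
    _ = (2 + 4 / ε) * (((s : ℝ) + 1) ^ m * K) * ((2 : ℝ) ^ i) ^ (β + ε / 2) := by
        rw [Real.rpow_add hp]; ring
    _ ≤ (2 + 4 / ε) * (((s : ℝ) + 1) ^ m * K) * (2 ^ (β + ε / 2) * (N : ℝ) ^ (β + ε / 2)) := by
        refine mul_le_mul_of_nonneg_left ?_ (by positivity)
        rw [← Real.mul_rpow (by norm_num) hN0.le]
        exact Real.rpow_le_rpow hp.le hi2' (by positivity)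
    _ = _ := by
        have : β + ε / 2 = 1 / 2 + (m : ℝ) * (m + 1) / (2 * (2 * (s : ℝ))) + ε := by rw [hβ]; ring
        rw [this]
        ring

end Pool.Agent.U922.XR
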